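import Pool.Agent.PalW.Duo
import Pool.Agent.PalSieve.P5

/-!
# Palindromes with at most four prime factors
-/

namespace Pool.Agent.Results.MP_e8d2ce_nt.AlmostPrimeFour

/-- The integers `1 ≤ n ≤ x` whose base-`b` digit string reads the same in reverse. -/
noncomputable def Pals (b : ℕ) (x : ℝ) : Finset ℕ :=
  (Finset.Icc 1 ⌊x⌋₊).filter (fun n : ℕ => (Nat.digits b n).reverse = Nat.digits b n)

open Classical in
/-- The members `n` of `Pals b x` with `Ω(n) ≤ r` (at most `r` prime factors, counted with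
multiplicity) all of whose prime factors are at least `x ^ (1/21)`. -/
noncomputable def PalsR (b r : ℕ) (x : ℝ) : Finset ℕ :=
  (Pals b x).filter (fun n : ℕ => ArithmeticFunction.cardFactors n ≤ r ∧
    ∀ p : ℕ, p.Prime → p ∣ n → x ≤ (p : ℝ) ^ 21)

/-- **Palindromic `P₄`.** In every base `b ≥ 4` there are `c > 0` and `x₀` such that for all
`x ≥ x₀` at least `c #P_b(x) / log x` of the base-`b` palindromes `n ≤ x` have at most four prime
factors counted with multiplicity, all of them at least `x ^ (1/21)`.  In base `3` the number of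
these is at least `c x ^ (log (8/3) / (2 log 3)) / (log x) ^ 2`.  In the bases `2` and `3` the
number with at most five prime factors is at least `c #P_b(x) / log x`. -/
theorem result :
    (∀ b : ℕ, 4 ≤ b → ∃ c x₀ : ℝ, 0 < c ∧ ∀ x : ℝ, x₀ ≤ x →
      c * ((Pals b x).card : ℝ) / Real.log x ≤ ((PalsR b 4 x).card : ℝ)) ∧
    (∃ c x₀ : ℝ, 0 < c ∧ ∀ x : ℝ, x₀ ≤ x →
      c * x ^ (Real.log (8 / 3) / (2 * Real.log 3)) / (Real.log x) ^ 2 ≤
        ((PalsR 3 4 x).card : ℝ)) ∧
    (∀ b : ℕ, 2 ≤ b → b ≤ 3 → ∃ c x₀ : ℝ, 0 < c ∧ ∀ x : ℝ, x₀ ≤ x →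
      c * ((Pals b x).card : ℝ) / Real.log x ≤ ((PalsR b 5 x).card : ℝ)) :=
  ⟨fun _ hb => Pool.Agent.PalW.four_full hb, Pool.Agent.PalW.four_three,
    fun _ hb _ => Pool.Agent.Pal.almost_prime_five hb⟩

end Pool.Agent.Results.MP_e8d2ce_nt.AlmostPrimeFour
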