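import Pool.Agent.PalW.Big

/-!
# Palindromes with at most three prime factors
-/

namespace Pool.Agent.Results.MP_e8d2ce_nt.AlmostPrimeThree

/-- The integers `1 ≤ n ≤ x` whose base-`b` digit string reads the same in reverse. -/
noncomputable def Pals (b : ℕ) (x : ℝ) : Finset ℕ :=
  (Finset.Icc 1 ⌊x⌋₊).filter (fun n : ℕ => (Nat.digits b n).reverse = Nat.digits b n)

open Classical in
/-- The members `n` of `Pals b x` with `Ω(n) ≤ 3` (at most three prime factors, counted with
multiplicity) all of whose prime factors are at least `x ^ (1/15)`. -/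
noncomputable def Pals3 (b : ℕ) (x : ℝ) : Finset ℕ :=
  (Pals b x).filter (fun n : ℕ => ArithmeticFunction.cardFactors n ≤ 3 ∧
    ∀ p : ℕ, p.Prime → p ∣ n → x ≤ (p : ℝ) ^ 15)

/-- **Palindromic `P₃`.** In every base `b ≥ 9` there are `c > 0` and `x₀` such that for all
`x ≥ x₀` at least `c x ^ (1/2 - log (4/3) / (2 log b)) / (log x) ^ 2` of the base-`b` palindromes
`n ≤ x` have at most three prime factors counted with multiplicity, all of them at least
`x ^ (1/15)`.  In every base `b ≥ 2048` the lower bound has the full order of magnitude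
`#P_b(x) / log x`. -/
theorem result :
    (∀ b : ℕ, 9 ≤ b → ∃ c x₀ : ℝ, 0 < c ∧ ∀ x : ℝ, x₀ ≤ x →
      c * x ^ (1 / 2 - Real.log (4 / 3) / (2 * Real.log b)) / (Real.log x) ^ 2 ≤
        ((Pals3 b x).card : ℝ)) ∧
    (∀ b : ℕ, 2048 ≤ b → ∃ c x₀ : ℝ, 0 < c ∧ ∀ x : ℝ, x₀ ≤ x →
      c * ((Pals b x).card : ℝ) / Real.log x ≤ ((Pals3 b x).card : ℝ)) := by
  refine ⟨fun b hb => ?_, fun b hb => Pool.Agent.PalW.three_full hb⟩
  have h := Pool.Agent.PalW.three hb
  have hb0 : (9 : ℝ) ≤ b := by exact_mod_cast hb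
  have e : Real.log (3 * b / 4) / (2 * Real.log b) =
      1 / 2 - Real.log (4 / 3) / (2 * Real.log b) := by
    have hL : 0 < Real.log b := Real.log_pos (by linarith)
    have e1 : Real.log (3 * b / 4) = Real.log b - Real.log (4 / 3) := by
      rw [← Real.log_div (by positivity) (by norm_num)]
      congr 1
      ring
    rw [e1]
    field_simp
  rw [e] at h
  exact h

end Pool.Agent.Results.MP_e8d2ce_nt.AlmostPrimeThree
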