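import Pool.Agent.PalM.LevelAll

/-!
# An explicit level of distribution of the palindromes in every base
-/

namespace Pool.Agent.Results.MP_e8d2ce_nt.LevelAllBases

/-- The integers `1 ≤ n ≤ y` whose base-`b` digit string reads the same in reverse and which are
congruent to `a` modulo `q`. -/
noncomputable def Pals (b : ℕ) (y : ℝ) (q : ℕ) (a : ℤ) : Finset ℕ :=
  (Finset.Icc 1 ⌊y⌋₊).filter
    (fun n : ℕ => (Nat.digits b n).reverse = Nat.digits b n ∧ (n : ℤ) ≡ a [ZMOD (q : ℤ)])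

/-- The level in base `b`: for `b ≥ 7` it is `1/2 - log ((3 + 17 H_b) / 20) / (2 log b)`, where
`H_b = 1 + 1/2 + ... + 1/b`; the values for `b = 3, 4, 5, 6` are explicit constants (about
`0.2592, 0.2734, 0.2817, 0.2821`), and the value for `b = 2` is `1/4`. -/
noncomputable def lev (b : ℕ) : ℝ :=
  if 7 ≤ b then 1 / 2 - Real.log ((3 + 17 * ∑ m ∈ Finset.range b, 1 / ((m : ℝ) + 1)) / 20) /
    (2 * Real.log b)
  else if b = 6 then Real.log (5000 / 1819) / (2 * Real.log 6)
  else if b = 5 then Real.log (1000 / 163) / (4 * Real.log 5)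
  else if b = 4 then Real.log (2000 / 439) / (4 * Real.log 4)
  else if b = 3 then Real.log (10000 / 3201) / (4 * Real.log 3)
  else 1 / 4

/-- **Level of distribution of the palindromes.** For every base `b ≥ 2` and every `θ < lev b`
there are `σ, C > 0` such that for all `x ≥ 1`, for every choice of heights `y_q ≤ x` and of
residue classes `a_q`, the sum over all moduli `q ≤ x ^ θ` coprime to `b` of the error
`| #P(y_q; q, a_q) - (g/q) #P(y_q; g, a_q) |`, where `g = gcd(q, b^2 - 1)`, is at most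
`C #P(x) exp(-σ √(log x))`. When `q` is coprime to `b^3 - b`, one has `g = 1` and the main term is
`#P(y_q) / q`. -/
theorem result (b : ℕ) (hb : 2 ≤ b) (θ : ℝ) (hθ : θ < lev b) :
    ∃ σ C : ℝ, 0 < σ ∧ 0 < C ∧ ∀ x : ℝ, 1 ≤ x →
      ∀ y : ℕ → ℝ, (∀ q, y q ≤ x) → ∀ a : ℕ → ℤ,
        ∑ q ∈ (Finset.Icc 1 ⌊x ^ θ⌋₊).filter (fun q : ℕ => q.Coprime b),
          |((Pals b (y q) q (a q)).card : ℝ) -
            ((q.gcd (b ^ 2 - 1) : ℕ) : ℝ) / (q : ℝ) *
              ((Pals b (y q) (q.gcd (b ^ 2 - 1)) (a q)).card : ℝ)| ≤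
        C * ((Pals b x 1 0).card : ℝ) * Real.exp (-σ * Real.sqrt (Real.log x)) :=
  Pool.Agent.PalM.level_all hb hθ

end Pool.Agent.Results.MP_e8d2ce_nt.LevelAllBases
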