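import Pool.Agent.HPY.Fin

/-!
# Primes whose outer digits are palindromic, in every base
-/

namespace Pool.Agent.Results.MP_e8d2ce_nt.MirroredDigits

/-- For every base `b ≥ 2` and every `ε > 0` there are `c > 0` and `k₀` such that for all `k ≥ k₀` and
all `m ≤ (5/18 - ε) k` at least `c * b ^ (k - m) / k` primes with exactly `k` base-`b` digits have equal
digits at the positions `i` and `k - 1 - i`, for all `i < m` (a palindrome is an integer for which this
holds for all `i < k / 2`; the bound has the expected order of magnitude). -/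
theorem result : ∀ b : ℕ, 2 ≤ b → ∀ ε : ℝ, 0 < ε → ∃ c : ℝ, 0 < c ∧ ∃ k₀ : ℕ, ∀ k : ℕ, k₀ ≤ k →
    ∀ m : ℕ, (m : ℝ) ≤ (5 / 18 - ε) * k →
      c * (b : ℝ) ^ (k - m) / k ≤ (((Finset.range (b ^ k)).filter fun n => n.Prime ∧
        b ^ (k - 1) ≤ n ∧ ∀ i < m,
          (Nat.digits b n).getD i 0 = (Nat.digits b n).getD (k - 1 - i) 0).card : ℝ) :=
  Pool.Agent.HPY.finN

end Pool.Agent.Results.MP_e8d2ce_nt.MirroredDigits
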